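import Mathlib
import Pool.Agent.V11111.Dil.Core

/-!
Three commuting unital normal completely positive maps on a von Neumann algebra whose
semigroup over `ℕ ^ 3` has no dilation whatsoever.
-/

set_option autoImplicit false

namespace Pool.Agent.Results.MP_0a86e9_an.NoDilation

open scoped ComplexOrder InnerProductSpace
open Matrix

/-- `T` is a unital normal completely positive linear map of the von Neumann algebra `A`. It is
given as a function on `B(H)`, of which only the restriction to `A` matters. -/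
structure IsUnitalNormalCP {H : Type*} [NormedAddCommGroup H] [InnerProductSpace ℂ H]
    [CompleteSpace H] (A : VonNeumannAlgebra H) (T : (H →L[ℂ] H) → (H →L[ℂ] H)) : Prop where
  maps : ∀ a ∈ A, T a ∈ A
  add : ∀ a ∈ A, ∀ b ∈ A, T (a + b) = T a + T b
  smul : ∀ z : ℂ, ∀ a ∈ A, T (z • a) = z • T a
  unital : T 1 = 1
  completelyPositive : ∀ (n : ℕ) (a : Fin n → (H →L[ℂ] H)) (ξ : Fin n → H), (∀ i, a i ∈ A) →
    0 ≤ ∑ i, ∑ j, ⟪ξ i, T (star (a i) * a j) (ξ j)⟫_ℂ
  normal : ∀ ξ η : H, ∃ x y : ℕ → H, Summable (fun k => ‖x k‖ ^ 2) ∧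
    Summable (fun k => ‖y k‖ ^ 2) ∧ ∀ a ∈ A, ⟪ξ, T a η⟫_ℂ = ∑' k, ⟪x k, a (y k)⟫_ℂ

/-- `θ` is a *-endomorphism (not required to be unital) of the von Neumann algebra `B`. It is
given as a function on `B(K)`, of which only the restriction to `B` matters. -/
structure IsStarEndomorphism {K : Type*} [NormedAddCommGroup K] [InnerProductSpace ℂ K]
    [CompleteSpace K] (B : VonNeumannAlgebra K) (θ : (K →L[ℂ] K) → (K →L[ℂ] K)) : Prop where
  maps : ∀ b ∈ B, θ b ∈ B
  add : ∀ b ∈ B, ∀ c ∈ B, θ (b + c) = θ b + θ c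
  smul : ∀ z : ℂ, ∀ b ∈ B, θ (z • b) = z • θ b
  mul : ∀ b ∈ B, ∀ c ∈ B, θ (b * c) = θ b * θ c
  star : ∀ b ∈ B, θ (star b) = star (θ b)

/-- The semigroup over `ℕ ^ 3` of a triple of maps: `s ↦ T₀ ^ s₀ ∘ T₁ ^ s₁ ∘ T₂ ^ s₂`. -/
def semigroup {M : Type*} (T : Fin 3 → M → M) (s : Fin 3 → ℕ) (a : M) : M :=
  (T 0)^[s 0] ((T 1)^[s 1] ((T 2)^[s 2] a))

/-- `(W W^*, K, B, θ)` is a dilation of the family `T` of maps of `A`, where the isometry
`W : H → K` identifies `H` with a closed subspace of `K`. -/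
structure IsDilation {H : Type*} [NormedAddCommGroup H] [InnerProductSpace ℂ H]
    [CompleteSpace H] (A : VonNeumannAlgebra H)
    (T : (Fin 3 → ℕ) → (H →L[ℂ] H) → (H →L[ℂ] H))
    {K : Type*} [NormedAddCommGroup K] [InnerProductSpace ℂ K] [CompleteSpace K]
    (W : H →L[ℂ] K) (B : VonNeumannAlgebra K)
    (θ : (Fin 3 → ℕ) → (K →L[ℂ] K) → (K →L[ℂ] K)) : Prop where
  /-- `W` is an isometry -/
  isometry : ∀ x, ‖W x‖ = ‖x‖
  /-- the projection `p = W W^*` onto `H` belongs to `B` -/
  proj_mem : W ∘L W.adjoint ∈ B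
  /-- `A` is the corner `p B p` -/
  corner : ∀ a : H →L[ℂ] H, a ∈ A ↔ W ∘L a ∘L W.adjoint ∈ B
  /-- every `θ_s` is a *-endomorphism of `B` -/
  endo : ∀ s, IsStarEndomorphism B (θ s)
  /-- `θ` is a semigroup -/
  zero : ∀ b ∈ B, θ 0 b = b
  add : ∀ s t, ∀ b ∈ B, θ (s + t) b = θ s (θ t b)
  /-- `T_s (a) = p θ_s (a) p` -/
  dilates : ∀ s, ∀ a ∈ A, T s a = W.adjoint ∘L θ s (W ∘L a ∘L W.adjoint) ∘L W

/-- Some von Neumann algebra on `H` carries three commuting unital normal completely positive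
maps whose semigroup has no dilation (on any Hilbert space). -/
def HasUndilatableTriple.{v, u} (H : Type v) [NormedAddCommGroup H] [InnerProductSpace ℂ H]
    [CompleteSpace H] : Prop :=
  ∃ (A : VonNeumannAlgebra H) (T : Fin 3 → (H →L[ℂ] H) → (H →L[ℂ] H)),
    (∀ i, IsUnitalNormalCP A (T i)) ∧ (∀ i j, ∀ a ∈ A, T i (T j a) = T j (T i a)) ∧
    ∀ (K : Type u) [NormedAddCommGroup K] [InnerProductSpace ℂ K] [CompleteSpace K]
      (W : H →L[ℂ] K) (B : VonNeumannAlgebra K)
      (θ : (Fin 3 → ℕ) → (K →L[ℂ] K) → (K →L[ℂ] K)),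
      ¬ IsDilation A (semigroup T) W B θ

/-- The group of the example. -/
abbrev G := Equiv.Perm (Fin 4)

/-- 3-cycle -/
def cyc (a b c : Fin 4) : G := Equiv.swap a b * Equiv.swap b c

def X : Fin 2 → G := ![cyc 1 2 3, cyc 0 1 3]
def Y : Fin 2 → G := ![cyc 1 3 2, cyc 0 1 2]
def Z : Fin 2 → G := ![cyc 0 2 3, cyc 0 3 1]

lemma hX : Function.Injective X := by decide
lemma hY : Function.Injective Y := by decide
lemma hZ : Function.Injective Z := by decide

lemma hXY : Pool.Agent.V11111.Dil.Braid X Y := ⟨by decide, by decide, by decide⟩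
lemma hXZ : Pool.Agent.V11111.Dil.Braid X Z := ⟨by decide, by decide, by decide⟩
lemma hYZ : Pool.Agent.V11111.Dil.Braid Y Z := ⟨by decide, by decide, by decide⟩

lemma r1 : X 0 * Y 0 = Y 0 * X 0 := by decide
lemma r2 : X 0 * Z 0 = Z 1 * X 0 := by decide
lemma r3 : Y 0 * Z 1 = Z 0 * Y 0 := by decide
lemma s1 : Y 0 * Z 0 = Z 0 * Y 1 := by decide
lemma s3 : X 0 * Y 1 = Y 1 * X 1 := by decide

/-- The Hilbert space of the example. -/
abbrev HG := EuclideanSpace ℂ G

/-- The algebra of all bounded operators, as a von Neumann algebra. -/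
noncomputable def full (H : Type*) [NormedAddCommGroup H] [InnerProductSpace ℂ H]
    [CompleteSpace H] : VonNeumannAlgebra H where
  toStarSubalgebra := ⊤
  centralizer_centralizer' := by
    apply Set.eq_univ_of_forall
    intro x y hy
    exact (hy x (Set.mem_univ _)).symm

/-- matrices are operators -/
noncomputable def Φ : Matrix G G ℂ ≃⋆ₐ[ℂ] (HG →L[ℂ] HG) := Matrix.toEuclideanCLM (n := G) (𝕜 := ℂ)

/-- The maps of the example. -/
noncomputable def TX (X : Fin 2 → G) (a : HG →L[ℂ] HG) : HG →L[ℂ] HG :=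
  (1 / 2 : ℂ) • ∑ j, star (Φ (Pool.Agent.V11111.Dil.lam (X j))) *
      (a * Φ (Pool.Agent.V11111.Dil.lam (X j)))

open Pool.Agent.V11111.Dil in
lemma TX_Φ (X : Fin 2 → G) (m : Matrix G G ℂ) : TX X (Φ m) = Φ (kr X m) := by
  rw [TX, kr, map_smul, map_sum]
  congr 1
  refine Finset.sum_congr rfl fun j _ => ?_
  rw [map_mul, map_mul, ← Matrix.star_eq_conjTranspose, map_star, mul_assoc]

lemma eqΦ (a : HG →L[ℂ] HG) : a = Φ (Φ.symm a) := by
  rw [StarAlgEquiv.apply_symm_apply]

lemma TX_one (X : Fin 2 → G) : TX X 1 = 1 := by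
  have : (1 : HG →L[ℂ] HG) = Φ 1 := (map_one Φ).symm
  rw [this, TX_Φ, Pool.Agent.V11111.Dil.kr_one]

lemma TX_comm (X Y : Fin 2 → G) (h : Pool.Agent.V11111.Dil.Braid X Y) (a : HG →L[ℂ] HG) :
    TX X (TX Y a) = TX Y (TX X a) := by
  rw [eqΦ a, TX_Φ, TX_Φ, TX_Φ, TX_Φ, Pool.Agent.V11111.Dil.kr_comm X Y h]

lemma TX_inner (X : Fin 2 → G) (c : HG →L[ℂ] HG) (ξ η : HG) :
    ⟪ξ, TX X c η⟫_ℂ = ∑ k, (1 / 2 : ℂ) *
      ⟪Φ (Pool.Agent.V11111.Dil.lam (X k)) ξ,
        c (Φ (Pool.Agent.V11111.Dil.lam (X k)) η)⟫_ℂ := by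
  rw [TX, _root_.smul_apply, inner_smul_right, _root_.sum_apply,
    inner_sum, Finset.mul_sum]
  refine Finset.sum_congr rfl fun k _ => ?_
  congr 1
  rw [mul_apply_eq_comp, ContinuousLinearMap.star_eq_adjoint,
    ContinuousLinearMap.adjoint_inner_right, mul_apply_eq_comp]

lemma half_nonneg : (0 : ℂ) ≤ 1 / 2 := by
  rw [show (1 / 2 : ℂ) = ((1 / 2 : ℝ) : ℂ) by push_cast; rfl]
  exact Complex.zero_le_real.2 (by norm_num)

lemma TX_ucp (X : Fin 2 → G) : IsUnitalNormalCP (full HG) (TX X) := by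
  refine ⟨fun _ _ => trivial, ?_, ?_, TX_one X, ?_, ?_⟩
  · intro a _ b _
    simp only [TX, add_mul, mul_add, Finset.sum_add_distrib, smul_add]
  · intro z a _
    simp only [TX, smul_mul_assoc, mul_smul_comm, ← Finset.smul_sum, smul_comm z]
  · intro n a ξ _
    have key : ∑ i, ∑ j, ⟪ξ i, TX X (star (a i) * a j) (ξ j)⟫_ℂ
        = ∑ k, (1 / 2 : ℂ) * ⟪∑ i, a i (Φ (Pool.Agent.V11111.Dil.lam (X k)) (ξ i)),
          ∑ i, a i (Φ (Pool.Agent.V11111.Dil.lam (X k)) (ξ i))⟫_ℂ := by
      have h1 : ∀ k ∈ (Finset.univ : Finset (Fin 2)), (1 / 2 : ℂ) *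
          ⟪∑ i, a i (Φ (Pool.Agent.V11111.Dil.lam (X k)) (ξ i)),
          ∑ i, a i (Φ (Pool.Agent.V11111.Dil.lam (X k)) (ξ i))⟫_ℂ
          = ∑ i, ∑ j, (1 / 2 : ℂ) * ⟪a i (Φ (Pool.Agent.V11111.Dil.lam (X k)) (ξ i)),
            a j (Φ (Pool.Agent.V11111.Dil.lam (X k)) (ξ j))⟫_ℂ := by
        intro k _
        rw [sum_inner, Finset.mul_sum]
        refine Finset.sum_congr rfl fun i _ => ?_
        rw [inner_sum, Finset.mul_sum]
      have h2 : ∀ i ∈ (Finset.univ : Finset (Fin n)), ∑ j,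
          ⟪ξ i, TX X (star (a i) * a j) (ξ j)⟫_ℂ
          = ∑ k, ∑ j, (1 / 2 : ℂ) * ⟪a i (Φ (Pool.Agent.V11111.Dil.lam (X k)) (ξ i)),
            a j (Φ (Pool.Agent.V11111.Dil.lam (X k)) (ξ j))⟫_ℂ := by
        intro i _
        rw [Finset.sum_comm]
        refine Finset.sum_congr rfl fun j _ => ?_
        rw [TX_inner]
        refine Finset.sum_congr rfl fun k _ => ?_
        congr 1
        rw [mul_apply_eq_comp, ContinuousLinearMap.star_eq_adjoint,
          ContinuousLinearMap.adjoint_inner_right]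
      rw [Finset.sum_congr rfl h1, Finset.sum_congr rfl h2, Finset.sum_comm]
    rw [key]
    refine Finset.sum_nonneg fun k _ => mul_nonneg half_nonneg ?_
    rw [inner_self_eq_norm_sq_to_K]
    positivity
  · intro ξ η
    refine ⟨fun k => if h : k < 2 then (1 / 2 : ℂ) • Φ (Pool.Agent.V11111.Dil.lam (X ⟨k, h⟩)) ξ
      else 0, fun k => if h : k < 2 then Φ (Pool.Agent.V11111.Dil.lam (X ⟨k, h⟩)) η else 0,
      ?_, ?_, ?_⟩
    · apply summable_of_ne_finset_zero (s := Finset.range 2)
      intro k hk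
      have hk' : ¬ k < 2 := by simpa using hk
      simp [hk']
    · apply summable_of_ne_finset_zero (s := Finset.range 2)
      intro k hk
      have hk' : ¬ k < 2 := by simpa using hk
      simp [hk']
    · intro a _
      rw [tsum_eq_sum (s := Finset.range 2)]
      · rw [TX_inner, Finset.sum_range, Fin.sum_univ_two, Fin.sum_univ_two]
        simp [mul_comm]
      · intro k hk
        have hk' : ¬ k < 2 := by simpa using hk
        simp [hk']

/-- Main theorem: there are a von Neumann algebra `A` and three commuting unital normal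
completely positive maps of `A` such that the associated semigroup over `ℕ ^ 3` has no dilation
at all. -/
theorem result.{u} : ∃ (H : Type) (_ : NormedAddCommGroup H) (_ : InnerProductSpace ℂ H)
    (_ : CompleteSpace H), HasUndilatableTriple.{0, u} H := by
  refine ⟨HG, inferInstance, inferInstance, inferInstance, full HG,
    ![TX X, TX Y, TX Z], ?_, ?_, ?_⟩
  · intro i
    fin_cases i
    · exact TX_ucp X
    · exact TX_ucp Y
    · exact TX_ucp Z
  · intro i j a _
    fin_cases i <;> fin_cases j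
    · rfl
    · exact TX_comm X Y hXY a
    · exact TX_comm X Z hXZ a
    · exact (TX_comm X Y hXY a).symm
    · rfl
    · exact TX_comm Y Z hYZ a
    · exact (TX_comm X Z hXZ a).symm
    · exact (TX_comm Y Z hYZ a).symm
    · rfl
  · intro K _ _ _ W B θ hd
    have hWW : W.adjoint ∘L W = 1 := by
      rw [← ContinuousLinearMap.norm_map_iff_adjoint_comp_self]
      exact hd.isometry
    have hWWx : ∀ x : HG, W.adjoint (W x) = x := fun x => by
      have := congrArg (fun f : HG →L[ℂ] HG => f x) hWW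
      exact this
    let ι : Matrix G G ℂ →⋆ₙₐ[ℂ] B.toStarSubalgebra :=
      { toFun := fun m => ⟨W ∘L (Φ m) ∘L W.adjoint, (hd.corner _).1 trivial⟩
        map_smul' := by
          intro c m
          apply Subtype.ext
          change W ∘L (Φ (c • m)) ∘L W.adjoint = c • (W ∘L (Φ m) ∘L W.adjoint)
          rw [map_smul]
          ext x
          simp
        map_zero' := by
          apply Subtype.ext
          change W ∘L (Φ 0) ∘L W.adjoint = 0
          rw [map_zero]
          simp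
        map_add' := by
          intro m m'
          apply Subtype.ext
          change W ∘L (Φ (m + m')) ∘L W.adjoint =
            W ∘L (Φ m) ∘L W.adjoint + W ∘L (Φ m') ∘L W.adjoint
          rw [map_add]
          ext x
          simp
        map_mul' := by
          intro m m'
          apply Subtype.ext
          change W ∘L (Φ (m * m')) ∘L W.adjoint =
            (W ∘L (Φ m) ∘L W.adjoint) ∘L (W ∘L (Φ m') ∘L W.adjoint)
          rw [map_mul]
          ext x
          simp only [ContinuousLinearMap.comp_apply, mul_apply_eq_comp, hWWx]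
        map_star' := by
          intro m
          apply Subtype.ext
          change W ∘L (Φ (star m)) ∘L W.adjoint = star (W ∘L (Φ m) ∘L W.adjoint)
          rw [map_star, ContinuousLinearMap.star_eq_adjoint, ContinuousLinearMap.star_eq_adjoint,
            ContinuousLinearMap.adjoint_comp, ContinuousLinearMap.adjoint_comp,
            ContinuousLinearMap.adjoint_adjoint]
          rfl }
    let Θ : (Fin 3 → ℕ) → (B.toStarSubalgebra →⋆ₙₐ[ℂ] B.toStarSubalgebra) := fun s =>
      { toFun := fun b => ⟨θ s b, (hd.endo s).maps b b.2⟩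
        map_smul' := fun c b => Subtype.ext ((hd.endo s).smul c b b.2)
        map_zero' := by
          apply Subtype.ext
          change θ s 0 = 0
          have := (hd.endo s).smul 0 1 (one_mem B)
          rwa [zero_smul, zero_smul] at this
        map_add' := fun b c => Subtype.ext ((hd.endo s).add b b.2 c c.2)
        map_mul' := fun b c => Subtype.ext ((hd.endo s).mul b b.2 c c.2)
        map_star' := fun b => Subtype.ext ((hd.endo s).star b b.2) }
    have hιc : ∀ m, (ι m : K →L[ℂ] K) = W ∘L (Φ m) ∘L W.adjoint := fun m => rfl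
    have hback : ∀ m, W.adjoint ∘L (ι m : K →L[ℂ] K) ∘L W = Φ m := by
      intro m
      rw [hιc]
      ext1 x
      simp only [ContinuousLinearMap.comp_apply, hWWx]
    have hι : Function.Injective ι := by
      intro m m' h
      have h2 : Φ m = Φ m' := by rw [← hback m, ← hback m', h]
      exact (EquivLike.injective Φ) h2
    have h1 : (ι 1 : K →L[ℂ] K) = W ∘L W.adjoint := by
      rw [hιc, map_one]
      rfl
    have hne : ι 1 ≠ 0 := by
      intro h
      have h0 : ι 1 = ι 0 := by rw [h, map_zero]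
      have := hι h0
      exact one_ne_zero this
    have hcor0 : ∀ r : B.toStarSubalgebra, ι 1 * r * ι 1 =
        ι (Φ.symm (W.adjoint ∘L (r : K →L[ℂ] K) ∘L W)) := by
      intro r
      apply Subtype.ext
      rw [hιc]
      change (ι 1 : K →L[ℂ] K) * (r : K →L[ℂ] K) * (ι 1 : K →L[ℂ] K) = _
      rw [h1, StarAlgEquiv.apply_symm_apply]
      ext x
      simp only [ContinuousLinearMap.comp_apply, mul_apply_eq_comp]
    have hcor : ∀ r : B.toStarSubalgebra, ι 1 * r * ι 1 = r → ∃ a, r = ι a := by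
      intro r hr
      exact ⟨Φ.symm (W.adjoint ∘L (r : K →L[ℂ] K) ∘L W), hr.symm.trans (hcor0 r)⟩
    have hprop : ∀ x : B.toStarSubalgebra, star x * x = 0 → x = 0 := by
      intro x hx
      apply Subtype.ext
      have : star (x : K →L[ℂ] K) * (x : K →L[ℂ] K) = 0 := congrArg Subtype.val hx
      exact CStarRing.star_mul_self_eq_zero_iff _ |>.1 this
    have hcom : ∀ i j r, Θ (Pi.single i 1) (Θ (Pi.single j 1) r) =
        Θ (Pi.single j 1) (Θ (Pi.single i 1) r) := by
      intro i j r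
      apply Subtype.ext
      change θ (Pi.single i 1) (θ (Pi.single j 1) r) = θ (Pi.single j 1) (θ (Pi.single i 1) r)
      rw [← hd.add _ _ _ r.2, ← hd.add _ _ _ r.2, add_comm]
    have hT : ∀ (i : Fin 3) (X' : Fin 2 → G),
        (∀ a, semigroup ![TX X, TX Y, TX Z] (Pi.single i 1) a = TX X' a) →
        ∀ a, ι 1 * Θ (Pi.single i 1) (ι a) * ι 1 = ι (Pool.Agent.V11111.Dil.kr X' a) := by
      intro i X' hX' a
      have h2 := hd.dilates (Pi.single i 1) (Φ a) trivial
      rw [hX', TX_Φ] at h2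
      rw [hcor0]
      change ι (Φ.symm (W.adjoint ∘L (θ (Pi.single i 1) (W ∘L (Φ a) ∘L W.adjoint)) ∘L W)) = _
      rw [← h2, StarAlgEquiv.symm_apply_apply]
    refine Pool.Agent.V11111.Dil.no_dil ι hι hne hcor hprop (fun i => Θ (Pi.single i 1)) hcom
      X Y Z hX hY hZ hXY hXZ hYZ (hT 0 X ?_) (hT 1 Y ?_) (hT 2 Z ?_) r1 r2 r3 s1 s3
    · intro a
      simp [semigroup]
    · intro a
      simp [semigroup]
    · intro a
      simp [semigroup]

end Pool.Agent.Results.MP_0a86e9_an.NoDilation
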